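import Mathlib
import Pool.Agent.R142.Code22

/-!
# Perfect cones spanned by `g` independent rank-one forms that are not basic

For every `g ≥ 22` there are linearly independent `v_1, ..., v_g` in `ℤ^g` and a positive definite
quadratic form with the minimal vectors `± v_1, ..., ± v_g` such that the matrices `v_i v_i^T` are
not part of a `ℤ`-basis of the lattice of integral symmetric matrices.

The lattice is obtained by Construction A from the self-dual binary code of length 22 with minimum
distance 6 (plus an orthogonal cubic lattice): if `v_1, ..., v_22` are the vectors `2 e_i`, then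
`v_1 v_1^T + ... + v_22 v_22^T` is divisible by 2.
-/

set_option autoImplicit false

namespace Pool.Agent.Results.MP_aa1cdf_co.NotBasic

/-- The value at `x ∈ ℤ^g` of the real quadratic form with matrix `Q`. -/
noncomputable def qf {ι : Type} [Fintype ι] (Q : Matrix ι ι ℝ) (x : ι → ℤ) : ℝ :=
  ∑ i, ∑ j, Q i j * x i * x j

/-- `Min(Q)`: the nonzero integral vectors at which `Q` attains its minimum over the nonzero
integral vectors. -/
def minVectors {ι : Type} [Fintype ι] (Q : Matrix ι ι ℝ) : Set (ι → ℤ) :=
  {x | x ≠ 0 ∧ ∀ y : ι → ℤ, y ≠ 0 → qf Q x ≤ qf Q y}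

/-- The matrix `p(v) = v v^T`. -/
def rankOne {ι : Type} (v : ι → ℤ) : Matrix ι ι ℤ := Matrix.of fun i j => v i * v j

/-- The lattice of integral symmetric matrices. -/
def Sym2 (ι : Type) : Submodule ℤ (Matrix ι ι ℤ) where
  carrier := {M | M.transpose = M}
  add_mem' := fun {a b} ha hb => by
    change (a + b).transpose = a + b
    rw [Matrix.transpose_add, show a.transpose = a from ha, show b.transpose = b from hb]
  zero_mem' := Matrix.transpose_zero
  smul_mem' := fun c M hM => by
    change (c • M).transpose = c • M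
    rw [Matrix.transpose_smul, show M.transpose = M from hM]

/-- `{p(v_1), ..., p(v_k)}` generates a perfect cone: for some positive definite quadratic form the
set of minimal vectors is `{± v_1, ..., ± v_k}`. -/
def GeneratesPerfectCone {κ ι : Type} [Fintype ι] (v : κ → ι → ℤ) : Prop :=
  ∃ Q : Matrix ι ι ℝ, Q.PosDef ∧ minVectors Q = {x | ∃ k, x = v k ∨ x = -v k}

/-- `p(v_1), ..., p(v_k)` are distinct members of a `ℤ`-basis of the lattice of integral symmetric
matrices. -/
def ExtendsToBasis {κ ι : Type} (v : κ → ι → ℤ) : Prop :=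
  ∃ (β : Type) (b : Module.Basis β ℤ (Sym2 ι)) (e : κ → β), Function.Injective e ∧
    ∀ k, (b (e k) : Matrix ι ι ℤ) = rankOne (v k)

/-! ### The lattice -/

open Pool.Agent.R142.Code22 (A code_bound)

/-- the index set -/
abbrev I (m : ℕ) : Type := Fin 11 ⊕ (Fin 11 ⊕ Fin m)

/-- the basis matrix of the lattice -/
def B (m : ℕ) : Matrix (I m) (I m) ℤ := fun r c => match r, c with
  | .inl i, .inl i' => if i = i' then 1 else 0
  | .inl _, .inr _ => 0
  | .inr (.inl j), .inl i => if A i j then 1 else 0
  | .inr (.inl j), .inr (.inl j') => if j = j' then 2 else 0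
  | .inr (.inl _), .inr (.inr _) => 0
  | .inr (.inr _), .inl _ => 0
  | .inr (.inr _), .inr (.inl _) => 0
  | .inr (.inr k), .inr (.inr k') => if k = k' then 2 else 0

/-- the minimal vectors -/
def v (m : ℕ) : I m → I m → ℤ := fun c r => match c, r with
  | .inl i, .inl i' => if i' = i then 2 else 0
  | .inl i, .inr (.inl j) => if A i j then -1 else 0
  | .inl _, .inr (.inr _) => 0
  | .inr _, .inl _ => 0
  | .inr x, .inr y => if y = x then 1 else 0

variable {m : ℕ}

theorem mul_inl {R : Type} [CommRing R] (x : I m → R) (i : Fin 11) :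
    ((B m).map (Int.cast : ℤ → R)).mulVec x (.inl i) = x (.inl i) := by
  simp [Matrix.mulVec, dotProduct, Fintype.sum_sum_type, B]

theorem mul_inrl {R : Type} [CommRing R] (x : I m → R) (j : Fin 11) :
    ((B m).map (Int.cast : ℤ → R)).mulVec x (.inr (.inl j)) =
      ∑ i : Fin 11, (if A i j then 1 else 0) * x (.inl i) + 2 * x (.inr (.inl j)) := by
  simp [Matrix.mulVec, dotProduct, Fintype.sum_sum_type, B]

theorem mul_inrr {R : Type} [CommRing R] (x : I m → R) (k : Fin m) :
    ((B m).map (Int.cast : ℤ → R)).mulVec x (.inr (.inr k)) = 2 * x (.inr (.inr k)) := by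
  simp [Matrix.mulVec, dotProduct, Fintype.sum_sum_type, B]

theorem mul_inj {R : Type} [CommRing R] [IsDomain R] [CharZero R] (x : I m → R)
    (h : ((B m).map (Int.cast : ℤ → R)).mulVec x = 0) : x = 0 := by
  have h1 : ∀ i, x (.inl i) = 0 := fun i => by
    rw [← mul_inl x i, h]; rfl
  have h2 : ∀ j, x (.inr (.inl j)) = 0 := fun j => by
    have := mul_inrl x j
    rw [h] at this
    simp only [h1, mul_zero, Finset.sum_const_zero, zero_add, Pi.zero_apply] at this
    rcases mul_eq_zero.1 this.symm with h | h
    · exact absurd h two_ne_zero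
    · exact h
  have h3 : ∀ k, x (.inr (.inr k)) = 0 := fun k => by
    have := mul_inrr x k
    rw [h] at this
    simp only [Pi.zero_apply] at this
    rcases mul_eq_zero.1 this.symm with h | h
    · exact absurd h two_ne_zero
    · exact h
  funext c
  rcases c with i | j | k
  · exact h1 i
  · exact h2 j
  · exact h3 k

/-- the coordinates in the cubic lattice -/
def X (x : I m → ℤ) : I m → ℤ := ((B m).map (Int.cast : ℤ → ℤ)).mulVec x

theorem X_add (x y : I m → ℤ) : X (x + y) = X x + X y := Matrix.mulVec_add _ _ _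

theorem X_smul (c : ℤ) (x : I m → ℤ) : X (c • x) = c • X x := Matrix.mulVec_smul _ _ _

theorem X_sub (x y : I m → ℤ) : X (x - y) = X x - X y := Matrix.mulVec_sub _ _ _

theorem X_v (c : I m) : X (v m c) = Pi.single c 2 := by
  funext r
  rcases r with i | j | k
  · rw [X, mul_inl]
    rcases c with i' | j' | k'
    · by_cases h : i = i'
      · subst h; simp [v]
      · simp [v, h]
    · simp [v]
    · simp [v]
  · rw [X, mul_inrl]
    rcases c with i' | j' | k'
    · simp [v]
      split_ifs <;> simp
    · by_cases h : j = j'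
      · subst h; simp [v]
      · simp [v, h]
    · simp [v]
  · rw [X, mul_inrr]
    rcases c with i' | j' | k'
    · simp [v]
    · simp [v]
    · by_cases h : k = k'
      · subst h; simp [v]
      · simp [v, h]

theorem X_inj {x y : I m → ℤ} (h : X x = X y) : x = y := by
  have : X (x - y) = 0 := by rw [X_sub, h, sub_self]
  have := mul_inj (R := ℤ) (x - y) this
  exact sub_eq_zero.1 this

/-- norm -/
def S (x : I m → ℤ) : ℤ := ∑ k, X x k ^ 2

theorem sq_ge_mod (a : ℤ) : ((a % 2).toNat : ℤ) ≤ a ^ 2 := by
  rcases Int.emod_two_eq_zero_or_one a with h | h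
  · rw [h]; simp; positivity
  · rw [h]
    have : a ≠ 0 := by rintro rfl; simp at h
    have : 0 < a ^ 2 := by positivity
    change (1 : ℤ) ≤ a ^ 2
    omega

/-- A vector of the lattice with an odd coordinate has norm at least 6. -/
theorem S_odd (x : I m → ℤ) (h : ∃ k, X x k % 2 ≠ 0) : 6 ≤ S x := by
  have hu : ∃ i, x (.inl i) % 2 ≠ 0 := by
    by_contra hcon
    push Not at hcon
    obtain ⟨k, hk⟩ := h
    apply hk
    rcases k with i | j | k
    · rw [X, mul_inl]; exact hcon i
    · rw [X, mul_inrl]
      have : (2 : ℤ) ∣ ∑ i : Fin 11, (if A i j then 1 else 0) * x (.inl i) :=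
        Finset.dvd_sum fun i _ => Dvd.dvd.mul_left (Int.dvd_of_emod_eq_zero (hcon i)) _
      omega
    · rw [X, mul_inrr]; omega
  have h1 := code_bound (fun i => x (.inl i)) hu
  have h2 : ((∑ i, (x (.inl i) % 2).toNat : ℕ) : ℤ) ≤ ∑ i, X x (.inl i) ^ 2 := by
    push_cast
    refine Finset.sum_le_sum fun i _ => ?_
    have : X x (.inl i) = x (.inl i) := by rw [X, mul_inl]
    rw [this]
    have := sq_ge_mod (x (.inl i))
    exact this
  have h3 : ((∑ j : Fin 11, ((∑ i : Fin 11, (if A i j then 1 else 0) * x (.inl i)) % 2).toNat : ℕ)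
      : ℤ) ≤ ∑ j, X x (.inr (.inl j)) ^ 2 := by
    push_cast
    refine Finset.sum_le_sum fun j _ => ?_
    have e : X x (.inr (.inl j)) = ∑ i : Fin 11, (if A i j then 1 else 0) * x (.inl i) +
        2 * x (.inr (.inl j)) := by rw [X, mul_inrl]
    have := sq_ge_mod (X x (.inr (.inl j)))
    rw [e] at this ⊢
    have e2 : (∑ i : Fin 11, (if A i j then 1 else 0) * x (.inl i) + 2 * x (.inr (.inl j))) % 2 =
        (∑ i : Fin 11, (if A i j then 1 else 0) * x (.inl i)) % 2 := by omega
    rw [e2] at this
    exact this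
  have h4 : 0 ≤ ∑ k, X x (.inr (.inr k)) ^ 2 := Finset.sum_nonneg fun k _ => sq_nonneg _
  rw [S, Fintype.sum_sum_type, Fintype.sum_sum_type]
  have h5 : ((6 : ℕ) : ℤ) ≤ ((∑ i, (x (.inl i) % 2).toNat +
      ∑ j : Fin 11, ((∑ i : Fin 11, (if A i j then 1 else 0) * x (.inl i)) % 2).toNat : ℕ) : ℤ) :=
    Nat.cast_le.2 h1
  rw [Nat.cast_add] at h5
  push_cast at h5 h2 h3
  linarith

/-- A vector all of whose coordinates are even is an integral combination of the `v`. -/
theorem even_case (x : I m → ℤ) (h : ∀ k, X x k % 2 = 0) (hx : x ≠ 0) :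
    4 ≤ S x ∧ (S x = 4 → ∃ k, x = v m k ∨ x = -v m k) := by
  choose t ht using fun k => Int.dvd_of_emod_eq_zero (h k)
  have hS : S x = 4 * ∑ k, t k ^ 2 := by
    rw [S, Finset.mul_sum]
    exact Finset.sum_congr rfl fun k _ => by rw [ht k]; ring
  obtain ⟨k0, hk0⟩ : ∃ k, t k ≠ 0 := by
    by_contra hcon
    push Not at hcon
    apply hx
    apply X_inj
    funext k
    rw [ht k, hcon k]
    simp [X, Matrix.mulVec_zero]
  have hpos : 1 ≤ t k0 ^ 2 := by
    have : 0 < t k0 ^ 2 := by positivity
    omega
  have hsplit : ∑ k, t k ^ 2 = t k0 ^ 2 + ∑ k ∈ Finset.univ.erase k0, t k ^ 2 :=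
    (Finset.add_sum_erase _ _ (Finset.mem_univ k0)).symm
  have hrest : 0 ≤ ∑ k ∈ Finset.univ.erase k0, t k ^ 2 := Finset.sum_nonneg fun k _ => sq_nonneg _
  refine ⟨by rw [hS]; omega, fun h4 => ?_⟩
  have h1 : t k0 ^ 2 = 1 := by omega
  have h2 : ∑ k ∈ Finset.univ.erase k0, t k ^ 2 = 0 := by omega
  have h3 : ∀ k, k ≠ k0 → t k = 0 := by
    intro k hk
    have := (Finset.sum_eq_zero_iff_of_nonneg (fun k _ => sq_nonneg (t k))).1 h2 k
      (Finset.mem_erase.2 ⟨hk, Finset.mem_univ k⟩)
    exact pow_eq_zero_iff (two_ne_zero) |>.1 this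
  refine ⟨k0, ?_⟩
  rcases mul_self_eq_one_iff.1 ((sq (t k0)).symm.trans h1) with h | h
  · left
    apply X_inj
    rw [X_v]
    funext k
    rw [ht k]
    by_cases hk : k = k0
    · subst hk; rw [h]; simp
    · rw [h3 k hk]; simp [hk]
  · right
    apply X_inj
    have : X (-v m k0) = -X (v m k0) := by
      have := X_smul (-1) (v m k0)
      simpa using this
    rw [this, X_v]
    funext k
    rw [ht k]
    by_cases hk : k = k0
    · subst hk; rw [h]; simp
    · rw [h3 k hk]; simp [hk]

theorem S_main (x : I m → ℤ) (hx : x ≠ 0) :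
    4 ≤ S x ∧ (S x = 4 → ∃ k, x = v m k ∨ x = -v m k) := by
  by_cases h : ∀ k, X x k % 2 = 0
  · exact even_case x h hx
  · push Not at h
    have := S_odd x h
    exact ⟨by omega, fun h4 => by omega⟩

theorem S_v (k : I m) : S (v m k) = 4 := by
  rw [S, X_v]
  rw [Finset.sum_eq_single k]
  · simp
  · intro j _ hj; simp [hj]
  · intro h; exact absurd (Finset.mem_univ k) h

theorem S_neg (x : I m → ℤ) : S (-x) = S x := by
  have : X (-x) = -X x := by
    have := X_smul (-1) x
    simpa using this
  rw [S, S, this]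
  simp

theorem v_ne_zero (k : I m) : v m k ≠ 0 := by
  intro h
  have := X_v k
  rw [h] at this
  have := congrFun this k
  simp [X, Matrix.mulVec_zero] at this

/-- the matrix of the form -/
noncomputable def Q (m : ℕ) : Matrix (I m) (I m) ℝ :=
  ((B m).map (Int.cast : ℤ → ℝ)).transpose * (B m).map (Int.cast : ℤ → ℝ)

theorem qf_Q (x : I m → ℤ) : qf (Q m) x = S x := by
  have h1 : qf (Q m) x = dotProduct (fun i => (x i : ℝ)) ((Q m).mulVec (fun i => (x i : ℝ))) := by
    simp only [qf, dotProduct, Matrix.mulVec, Finset.mul_sum]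
    exact Finset.sum_congr rfl fun i _ => Finset.sum_congr rfl fun j _ => by ring
  have h2 : ((B m).map (Int.cast : ℤ → ℝ)).mulVec (fun i => (x i : ℝ)) =
      fun k => ((X x k : ℤ) : ℝ) := by
    funext k
    simp only [X, Matrix.mulVec, dotProduct, Matrix.map_apply]
    push_cast
    rfl
  rw [h1, Q, ← Matrix.mulVec_mulVec, Matrix.dotProduct_mulVec, Matrix.vecMul_transpose, h2, S]
  push_cast
  simp only [dotProduct, sq]

theorem Q_posDef (m : ℕ) : (Q m).PosDef := by
  have := Matrix.PosDef.conjTranspose_mul_self ((B m).map (Int.cast : ℤ → ℝ)) (by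
    intro x y h
    have h' : ((B m).map (Int.cast : ℤ → ℝ)).mulVec (x - y) = 0 := by
      rw [Matrix.mulVec_sub]; exact sub_eq_zero.2 h
    exact sub_eq_zero.1 (mul_inj (R := ℝ) _ h'))
  rw [Matrix.conjTranspose_eq_transpose_of_trivial] at this
  exact this

theorem minVectors_Q : minVectors (Q m) = {x | ∃ k, x = v m k ∨ x = -v m k} := by
  ext x
  constructor
  · rintro ⟨hx, hmin⟩
    refine (S_main x hx).2 (le_antisymm ?_ (S_main x hx).1)
    have := hmin (v m (.inl 0)) (v_ne_zero _)
    rw [qf_Q, qf_Q, S_v] at this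
    exact_mod_cast this
  · rintro ⟨k, hk⟩
    have hS : S x = 4 := by
      rcases hk with rfl | rfl
      · exact S_v k
      · rw [S_neg, S_v]
    refine ⟨?_, fun y hy => ?_⟩
    · rcases hk with rfl | rfl
      · exact v_ne_zero k
      · exact neg_ne_zero.2 (v_ne_zero k)
    · rw [qf_Q, qf_Q, hS]
      exact_mod_cast (S_main y hy).1

theorem linInd : LinearIndependent ℤ (v m) := by
  rw [Fintype.linearIndependent_iff]
  intro c hc k
  have h1 : X (∑ i, c i • v m i) = fun j => 2 * c j := by
    have : X (∑ i, c i • v m i) = ∑ i, c i • X (v m i) := by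
      let L : (I m → ℤ) →ₗ[ℤ] (I m → ℤ) := ((B m).map (Int.cast : ℤ → ℤ)).mulVecLin
      change L _ = ∑ i, c i • L (v m i)
      rw [map_sum]
      exact Finset.sum_congr rfl fun i _ => by rw [map_smul]
    rw [this]
    funext j
    rw [Finset.sum_apply, Finset.sum_eq_single j]
    · rw [X_v]; simp [mul_comm]
    · intro i _ hij
      rw [X_v]
      simp [Ne.symm hij]
    · intro h; exact absurd (Finset.mem_univ j) h
  rw [hc] at h1
  have := congrFun h1 k
  simp [X, Matrix.mulVec_zero] at this
  exact this

/-- the first 22 vectors -/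
def s22 (m : ℕ) : Finset (I m) := Finset.univ.filter fun c => ∀ k, c ≠ .inr (.inr k)

theorem sum_s22 (f : I m → ℤ) : ∑ k ∈ s22 m, f k = ∑ i, f (.inl i) + ∑ j, f (.inr (.inl j)) := by
  rw [s22, Finset.sum_filter, Fintype.sum_sum_type, Fintype.sum_sum_type]
  simp

theorem chkA : ∀ j j' : Fin 11, Even (∑ i : Fin 11, (if A i j then (1 : ℤ) else 0) *
    (if A i j' then 1 else 0) + if j = j' then 1 else 0) := by
  decide +kernel

theorem even_sum (r c : I m) : Even (∑ k ∈ s22 m, v m k r * v m k c) := by
  rw [sum_s22]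
  rcases r with i | j | k <;> rcases c with i' | j' | k'
  · simp only [v]
    refine Even.add ?_ ?_
    · refine Finset.even_sum _ fun x _ => ?_
      split_ifs <;> simp
      exact ⟨2, by norm_num⟩
    · simp
  · simp only [v]
    refine Even.add ?_ ?_
    · refine Finset.even_sum _ fun x _ => ?_
      split_ifs <;> simp
    · simp
  · simp [v]
  · simp only [v]
    refine Even.add ?_ ?_
    · refine Finset.even_sum _ fun x _ => ?_
      split_ifs <;> simp
    · simp
  · have := chkA j j'
    convert this using 2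
    · refine Finset.sum_congr rfl fun i _ => ?_
      simp only [v]
      split_ifs <;> simp
    · simp only [v]
      rw [Finset.sum_eq_single j]
      · simp
        by_cases h : j = j'
        · simp [h]
        · simp [h, Ne.symm h]
      · intro i _ hi
        have : ¬ (Sum.inl j : Fin 11 ⊕ Fin m) = Sum.inl i := fun h => hi (Sum.inl.inj h).symm
        simp [this]
      · intro h; exact absurd (Finset.mem_univ j) h
  · simp [v]
  · simp [v]
  · simp [v]
  · simp [v]

/-! ### Obstruction and transport -/

theorem not_extends {κ ι : Type} (v : κ → ι → ℤ) (s : Finset κ) (k0 : κ) (hk0 : k0 ∈ s)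
    (h : ∀ r c, Even (∑ k ∈ s, v k r * v k c)) : ¬ ExtendsToBasis v := by
  rintro ⟨β, b, e, he, hb⟩
  choose t ht using h
  have hsym : ∀ r c, t r c = t c r := by
    intro r c
    have h1 := ht r c
    have h2 := ht c r
    have : ∑ k ∈ s, v k r * v k c = ∑ k ∈ s, v k c * v k r :=
      Finset.sum_congr rfl fun k _ => mul_comm _ _
    omega
  let M : Sym2 ι := ⟨Matrix.of t, by
    change (Matrix.of t).transpose = Matrix.of t
    ext r c
    exact hsym c r⟩
  have h1 : ∑ k ∈ s, b (e k) = (2 : ℤ) • M := by
    apply Subtype.ext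
    rw [Submodule.coe_sum]
    ext r c
    simp only [hb]
    rw [Matrix.sum_apply]
    change ∑ k ∈ s, v k r * v k c = (2 : ℤ) * t r c
    rw [ht r c]; ring
  have h2 := congrArg (fun x => b.repr x (e k0)) h1
  simp only [map_sum, map_smul, Module.Basis.repr_self, Finsupp.coe_smul, Pi.smul_apply,
    smul_eq_mul] at h2
  rw [Finsupp.finsetSum_apply, Finset.sum_eq_single k0] at h2
  · rw [Finsupp.single_eq_same] at h2
    omega
  · intro k _ hk
    exact Finsupp.single_eq_of_ne fun h => hk (he h).symm
  · intro h; exact absurd hk0 h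

theorem qf_reindex {ι κ : Type} [Fintype ι] [Fintype κ] (e : ι ≃ κ) (Q : Matrix ι ι ℝ)
    (x : κ → ℤ) : qf (Q.submatrix e.symm e.symm) x = qf Q (x ∘ e) := by
  simp only [qf, Matrix.submatrix_apply]
  rw [← e.sum_comp]
  refine Finset.sum_congr rfl fun i _ => ?_
  rw [← e.sum_comp]
  simp

/-- For every `g ≥ 22` there are linearly independent `v_1, ..., v_g` in `ℤ^g` such that
`p(v_1), ..., p(v_g)` generate a perfect cone but are not part of a `ℤ`-basis of the lattice of
integral symmetric matrices. -/
theorem result : ∀ g : ℕ, 22 ≤ g → ∃ v : Fin g → Fin g → ℤ,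
    LinearIndependent ℤ v ∧ GeneratesPerfectCone v ∧ ¬ ExtendsToBasis v := by
  intro g hg
  obtain ⟨m, rfl⟩ := Nat.exists_eq_add_of_le hg
  have hcard : Fintype.card (I m) = Fintype.card (Fin (22 + m)) := by
    simp only [Fintype.card_sum, Fintype.card_fin]
    omega
  let e : I m ≃ Fin (22 + m) := Fintype.equivOfCardEq hcard
  refine ⟨fun k r => NotBasic.v m (e.symm k) (e.symm r), ?_, ⟨(Q m).submatrix e.symm e.symm, ?_, ?_⟩,
    ?_⟩
  · have h1 : LinearIndependent ℤ (fun k => NotBasic.v m (e.symm k)) :=
      linInd.comp _ e.symm.injective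
    have h2 := h1.map' (LinearMap.funLeft ℤ ℤ e.symm)
      (LinearMap.ker_eq_bot.2 (LinearMap.funLeft_injective_of_surjective ℤ ℤ _ e.symm.surjective))
    exact h2
  · exact (Q_posDef m).submatrix e.symm.injective
  · ext x
    have hx : x ≠ 0 ↔ x ∘ e ≠ 0 := by
      rw [not_iff_not]
      constructor
      · rintro rfl; rfl
      · intro h
        funext k
        have := congrFun h (e.symm k)
        simpa using this
    have h1 : x ∈ minVectors ((Q m).submatrix e.symm e.symm) ↔ x ∘ e ∈ minVectors (Q m) := by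
      simp only [minVectors, Set.mem_ofPred_eq, qf_reindex, hx]
      refine and_congr_right fun _ => ⟨fun h y hy => ?_, fun h y hy => ?_⟩
      · have := h (y ∘ e.symm) (by
          intro h0
          apply hy
          funext k
          have := congrFun h0 (e k)
          simpa using this)
        have e2 : (y ∘ e.symm) ∘ e = y := by funext k; simp
        rwa [e2] at this
      · refine h (y ∘ e) ?_
        intro h0
        apply hy
        funext k
        have := congrFun h0 (e.symm k)
        simpa using this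
    rw [h1, minVectors_Q]
    constructor
    · rintro ⟨k, hk⟩
      refine ⟨e k, ?_⟩
      rcases hk with hk | hk
      · left
        funext r
        have := congrFun hk (e.symm r)
        simpa using this
      · right
        funext r
        have := congrFun hk (e.symm r)
        simpa using this
    · rintro ⟨k, hk⟩
      refine ⟨e.symm k, ?_⟩
      rcases hk with hk | hk
      · left
        rw [hk]; funext r; simp
      · right
        rw [hk]; funext r; simp
  · refine not_extends _ ((s22 m).map e.toEmbedding) (e (.inl 0)) ?_ ?_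
    · rw [Finset.mem_map]
      exact ⟨.inl 0, by simp [s22], rfl⟩
    · intro r c
      rw [Finset.sum_map]
      simpa using even_sum (e.symm r) (e.symm c)

end Pool.Agent.Results.MP_aa1cdf_co.NotBasic
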